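import Pool.Agent.Y169.CH.Top

/-!
The Campana-Peternell inequality from the equality of the Kodaira and the numerical dimension.
-/

set_option autoImplicit false
set_option linter.overlappingInstances false
set_option linter.unusedSectionVars false
set_option maxHeartbeats 400000

open FF MvPolynomial Pool.Agent.W602.GT

namespace Pool.Agent.Y169.CP

open Pool.Agent.Y169.CH

variable {N : ℕ} {K : Type} [Field K] [Algebra ℂ K]

/-- `r K_X - A` is pseudo-effective: for some divisor `H` all the divisors `j (r K_X - A) + H`,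
`j ≥ 1`, are effective. -/
def Rest (N : ℕ) (K : Type) [Field K] [Algebra ℂ K] (r : ℕ) (a : Place ℂ K → ℤ) : Prop :=
  ∃ S : Finset K, ∀ j : ℕ, 1 ≤ j → ∃ ω : (Fin N → Derivation ℂ K K) → K, ω ≠ 0 ∧
    IsPluri (j * r) ω ∧ ∀ P : Place ℂ K, Divisorial N P → ∀ D : Fin N → Derivation ℂ K K,
      (∀ c, DerReg P (D c)) → ω D = 0 ∨ ∃ s ∈ S, s ≠ 0 ∧ j * a P + P.ord s ≤ P.ord (ω D)

/-- `κ (A) ≥ h`. -/
def DivGe (N : ℕ) (K : Type) [Field K] [Algebra ℂ K] (a : Place ℂ K → ℤ) (h : ℕ) : Prop :=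
  ∃ m : ℕ, 0 < m ∧ ∃ f : Fin (h + 1) → K, f 0 ≠ 0 ∧
    (∀ b, ∀ P : Place ℂ K, Divisorial N P → f b = 0 ∨ - (m * a P) ≤ P.ord (f b)) ∧
    AlgebraicIndependent ℂ fun b : Fin h => f b.succ / f 0

theorem AKod.mono {h h' : ℕ} (hle : h' ≤ h) (hk : AKod N K h) : AKod N K h' := by
  obtain ⟨m, hm, ω, hω, D, hD, hind⟩ := hk
  refine ⟨m, hm, fun b => ω (Fin.castLE (by omega) b), fun b => hω _, D, hD, ?_⟩
  exact hind.comp (fun b : Fin h' => Fin.castLE hle b) (Fin.castLE_injective hle)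

/-- the products with the functions -/
theorem mul_sec {r : ℕ} {a : Place ℂ K → ℤ} {S : Finset K} {j m : ℕ}
    {ω : (Fin N → Derivation ℂ K K) → K} (hω : IsPluri (j * m * r) ω)
    (hP : ∀ P : Place ℂ K, Divisorial N P → ∀ D : Fin N → Derivation ℂ K K,
      (∀ c, DerReg P (D c)) → ω D = 0 ∨ ∃ s ∈ S, s ≠ 0 ∧ (j * m : ℕ) * a P + P.ord s ≤ P.ord (ω D))
    {g : K} (hg : ∀ P : Place ℂ K, Divisorial N P → g = 0 ∨ - (j * (m * a P)) ≤ P.ord g) :
    ASec N S (j * m * r) 1 fun D => g * ω D := by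
  refine ⟨?_, fun P hPd D hD => ?_⟩
  · intro A D
    change g * ω _ = _
    rw [hω A D]
    ring
  · by_cases hg0 : g = 0
    · left
      change g * ω D = 0
      rw [hg0, zero_mul]
    by_cases h0 : ω D = 0
    · left
      change g * ω D = 0
      rw [h0, mul_zero]
    right
    obtain ⟨s, hs, hs0, hle⟩ := (hP P hPd D hD).resolve_left h0
    refine ⟨s, hs, hs0, ?_⟩
    change _ ≤ P.ord (g * ω D)
    rw [P.ord_mul hg0 h0]
    have h1 := (hg P hPd).resolve_left hg0
    push_cast at hle ⊢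
    linarith

theorem psef_of_rest {r : ℕ} {a : Place ℂ K → ℤ} {h : ℕ} (hr : 1 ≤ r) (hps : Rest N K r a)
    (hA : DivGe N K a h) : APsef N K := by
  classical
  obtain ⟨S, hS⟩ := hps
  obtain ⟨m, hm, f, hf0, hf, -⟩ := hA
  refine ⟨insert 1 S, fun M => ⟨m * r, Nat.mul_pos hm hr, ?_⟩⟩
  by_cases hM : M = 0
  · subst hM
    refine ⟨fun _ => 1, fun h0 => one_ne_zero (congrFun h0 0), ?_, ?_⟩
    · intro A D
      simp
    · intro P _ D _
      right
      exact ⟨1, Finset.mem_insert_self _ _, one_ne_zero, by rw [P.ord_one, mul_zero]⟩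
  obtain ⟨ω, hω0, hω, hP⟩ := hS (M * m) (Nat.mul_pos (by omega) hm)
  have h1 : ASec N S (M * m * r) 1 fun D => f 0 ^ M * ω D := by
    refine mul_sec hω hP fun P hPd => Or.inr ?_
    rw [P.ord_pow]
    have h2 := (hf 0 P hPd).resolve_left hf0
    have h3 := mul_le_mul_of_nonneg_left h2 (show (0 : ℤ) ≤ M by positivity)
    linarith
  have he : m * r * M = M * m * r := by ring
  refine ⟨fun D => f 0 ^ M * ω D, fun h0 => hω0 ?_, ?_, ?_⟩
  · funext D
    exact (mul_eq_zero.1 (congrFun h0 D)).resolve_left (pow_ne_zero _ hf0)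
  · rw [he]
    exact h1.1
  · intro P hPd D hD
    refine (h1.2 P hPd D hD).imp id ?_
    rintro ⟨s, hs, hs0, hle⟩
    rw [Nat.cast_one, one_mul] at hle
    by_cases hneg : P.ord s ≤ 0
    · refine ⟨s, Finset.mem_insert_of_mem hs, hs0, ?_⟩
      have h2 : (1 : ℤ) ≤ (m * r : ℕ) := by exact_mod_cast Nat.mul_pos hm hr
      nlinarith
    · push Not at hneg
      refine ⟨1, Finset.mem_insert_self _ _, one_ne_zero, ?_⟩
      rw [P.ord_one, mul_zero]
      linarith

/-- the monomials with bounded exponents -/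
theorem mono_lin {h : ℕ} {t : Fin h → K} (ht : AlgebraicIndependent ℂ t) (j : ℕ) :
    LinearIndependent ℂ fun e : Fin h → Fin (j + 1) => ∏ b, t b ^ (e b : ℕ) := by
  have h1 := (MvPolynomial.basisMonomials (Fin h) ℂ).linearIndependent
  have h2 := h1.map' (aeval t).toLinearMap (LinearMap.ker_eq_bot.2 ht)
  have h3 : Function.Injective fun e : Fin h → Fin (j + 1) =>
      (Finsupp.equivFunOnFinite.symm fun b => (e b : ℕ) : Fin h →₀ ℕ) := by
    intro e e' hee
    funext b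
    have h4 := DFunLike.congr_fun hee b
    simp only [Finsupp.coe_equivFunOnFinite_symm] at h4
    exact Fin.ext h4
  have h4 := h2.comp _ h3
  have h5 : (fun e : Fin h → Fin (j + 1) => ∏ b, t b ^ (e b : ℕ)) =
      (⇑(aeval t).toLinearMap ∘ ⇑(basisMonomials (Fin h) ℂ)) ∘ fun e : Fin h → Fin (j + 1) =>
        (Finsupp.equivFunOnFinite.symm fun b => (e b : ℕ) : Fin h →₀ ℕ) := by
    funext e
    simp only [Function.comp_apply, coe_basisMonomials, AlgHom.toLinearMap_apply, aeval_monomial,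
      map_one, one_mul]
    rw [Finsupp.prod_fintype _ _ fun _ => pow_zero _]
    rfl
  rw [h5]
  exact h4

/-- **The Campana-Peternell inequality.** -/
theorem cp (hab : APsef N K → ∃ h0, AKod N K h0 ∧ ANum N K h0) {r : ℕ} (hr : 1 ≤ r)
    {a : Place ℂ K → ℤ} {h : ℕ} (hps : Rest N K r a) (hA : DivGe N K a h) : AKod N K h := by
  classical
  obtain ⟨h0, hk, hnum⟩ := hab (psef_of_rest hr hps hA)
  rcases le_or_gt h h0 with hle | hlt
  · exact AKod.mono hle hk
  exfalso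
  obtain ⟨S, hS⟩ := hps
  obtain ⟨C, hC⟩ := hnum S
  obtain ⟨m, hm, f, hf0, hf, hind⟩ := hA
  obtain ⟨t, ht⟩ : ∃ t : Fin (h0 + 1) → K, t = fun b => f (Fin.castLE hlt b).succ / f 0 := ⟨_, rfl⟩
  have htind : AlgebraicIndependent ℂ t := by
    rw [ht]
    exact hind.comp (fun b : Fin (h0 + 1) => Fin.castLE hlt b) (Fin.castLE_injective _)
  have key : ∀ j : ℕ, 1 ≤ j → (j + 1) ^ (h0 + 1) ≤ C * ((h0 + 1) * j * m * r) ^ h0 := by
    intro j hj
    have hJ : 1 ≤ (h0 + 1) * j * m := Nat.mul_pos (Nat.mul_pos (by omega) hj) hm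
    obtain ⟨ω, hω0, hω, hP⟩ := hS ((h0 + 1) * j * m) hJ
    obtain ⟨D0, hD0⟩ : ∃ D, ω D ≠ 0 := by
      by_contra hcon
      push Not at hcon
      exact hω0 (funext hcon)
    obtain ⟨g, hg⟩ : ∃ g : (Fin (h0 + 1) → Fin (j + 1)) → K,
      g = fun e => f 0 ^ ((h0 + 1) * j) * ∏ b, t b ^ (e b : ℕ) := ⟨_, rfl⟩
    have hgval : ∀ e, g e = f 0 ^ ((h0 + 1) * j - ∑ b, (e b : ℕ)) *
        ∏ b, f (Fin.castLE hlt b).succ ^ (e b : ℕ) := by
      intro e
      have hle : ∑ b, (e b : ℕ) ≤ (h0 + 1) * j := by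
        calc ∑ b, (e b : ℕ) ≤ ∑ _b : Fin (h0 + 1), j :=
              Finset.sum_le_sum fun b _ => Nat.le_of_lt_succ (e b).2
          _ = (h0 + 1) * j := by
              rw [Finset.sum_const, Finset.card_univ, Fintype.card_fin, smul_eq_mul]
      rw [hg, ht]
      dsimp only
      have h1 : ∀ b, (f (Fin.castLE hlt b).succ / f 0) ^ (e b : ℕ) * f 0 ^ (e b : ℕ) =
          f (Fin.castLE hlt b).succ ^ (e b : ℕ) := fun b => by
        rw [← mul_pow, div_mul_cancel₀ _ hf0]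
      have h2 : f 0 ^ ((h0 + 1) * j) = f 0 ^ ((h0 + 1) * j - ∑ b, (e b : ℕ)) *
          ∏ b, f 0 ^ (e b : ℕ) := by
        rw [Finset.prod_pow_eq_pow_sum, ← pow_add, Nat.sub_add_cancel hle]
      rw [h2, mul_assoc, ← Finset.prod_mul_distrib]
      congr 1
      refine Finset.prod_congr rfl fun b _ => ?_
      rw [mul_comm]
      exact h1 b
    have hsec : ∀ e, ASec N S ((h0 + 1) * j * m * r) 1 fun D => g e * ω D := by
      intro e
      have hω' : IsPluri ((h0 + 1) * j * m * r) ω := hω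
      refine mul_sec (j := (h0 + 1) * j) hω' hP fun P hPd => ?_
      by_cases hge : g e = 0
      · exact Or.inl hge
      right
      have hfac : ∀ b, (e b : ℕ) ≠ 0 → f (Fin.castLE hlt b).succ ≠ 0 := by
        intro b hb h3
        apply hge
        rw [hgval, Finset.prod_eq_zero (Finset.mem_univ b), mul_zero]
        rw [h3, zero_pow hb]
      have hne : ∀ b, f (Fin.castLE hlt b).succ ^ (e b : ℕ) ≠ 0 := by
        intro b
        by_cases hb : (e b : ℕ) = 0
        · rw [hb, pow_zero]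
          exact one_ne_zero
        · exact pow_ne_zero _ (hfac b hb)
      rw [hgval, P.ord_mul (pow_ne_zero _ hf0) (Finset.prod_ne_zero_iff.2 fun b _ => hne b),
        P.ord_pow, ord_prod' P Finset.univ _ fun b _ => hne b]
      have h2 := (hf 0 P hPd).resolve_left hf0
      have h3 : ∀ b, - (((e b : ℕ) : ℤ) * (m * a P)) ≤
          P.ord (f (Fin.castLE hlt b).succ ^ (e b : ℕ)) := by
        intro b
        rw [P.ord_pow]
        by_cases hb : (e b : ℕ) = 0
        · rw [hb]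
          simp
        · have h4 := (hf (Fin.castLE hlt b).succ P hPd).resolve_left (hfac b hb)
          have h5 := mul_le_mul_of_nonneg_left h4 (show (0 : ℤ) ≤ ((e b : ℕ) : ℤ) by positivity)
          linarith
      have hle : ∑ b, (e b : ℕ) ≤ (h0 + 1) * j := by
        calc ∑ b, (e b : ℕ) ≤ ∑ _b : Fin (h0 + 1), j :=
              Finset.sum_le_sum fun b _ => Nat.le_of_lt_succ (e b).2
          _ = (h0 + 1) * j := by
              rw [Finset.sum_const, Finset.card_univ, Fintype.card_fin, smul_eq_mul]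
      have h4 : - (∑ b, ((e b : ℕ) : ℤ)) * (m * a P) ≤
          ∑ b, P.ord (f (Fin.castLE hlt b).succ ^ (e b : ℕ)) := by
        calc - (∑ b, ((e b : ℕ) : ℤ)) * (m * a P) = ∑ b, - (((e b : ℕ) : ℤ) * (m * a P)) := by
              rw [Finset.sum_neg_distrib, ← Finset.sum_mul]
              ring
          _ ≤ _ := Finset.sum_le_sum fun b _ => h3 b
      have h5 : ((((h0 + 1) * j - ∑ b, (e b : ℕ) : ℕ) : ℤ)) =
          ((h0 + 1) * j : ℕ) - ∑ b, ((e b : ℕ) : ℤ) := by
        rw [Nat.cast_sub hle]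
        push_cast
        ring
      have h6 := mul_le_mul_of_nonneg_left h2
        (show (0 : ℤ) ≤ (((h0 + 1) * j - ∑ b, (e b : ℕ) : ℕ) : ℤ) by positivity)
      rw [h5] at h6 ⊢
      push_cast at h6 ⊢
      linarith
    have hlin : LinearIndependent ℂ fun (e : Fin (h0 + 1) → Fin (j + 1))
        (D : Fin N → Derivation ℂ K K) => g e * ω D := by
      refine LinearIndependent.of_comp
        (LinearMap.proj D0 : ((Fin N → Derivation ℂ K K) → K) →ₗ[ℂ] K) ?_
      have h3 := (mono_lin htind j).map'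
        (LinearMap.mulRight ℂ (f 0 ^ ((h0 + 1) * j) * ω D0))
        (LinearMap.ker_eq_bot.2 (mul_left_injective₀ (mul_ne_zero (pow_ne_zero _ hf0) hD0)))
      have h4 : (⇑(LinearMap.proj D0 : ((Fin N → Derivation ℂ K K) → K) →ₗ[ℂ] K) ∘
          fun (e : Fin (h0 + 1) → Fin (j + 1)) (D : Fin N → Derivation ℂ K K) => g e * ω D) =
          ⇑(LinearMap.mulRight ℂ (f 0 ^ ((h0 + 1) * j) * ω D0)) ∘
            fun e : Fin (h0 + 1) → Fin (j + 1) => ∏ b, t b ^ (e b : ℕ) := by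
        funext e
        rw [hg]
        simp only [Function.comp_apply, LinearMap.mulRight_apply, LinearMap.coe_proj,
          Function.eval]
        ring
      rw [h4]
      exact h3
    have hcard : Fintype.card (Fin (h0 + 1) → Fin (j + 1)) = (j + 1) ^ (h0 + 1) := by
      rw [Fintype.card_fun, Fintype.card_fin, Fintype.card_fin]
    let eq : Fin ((j + 1) ^ (h0 + 1)) ≃ (Fin (h0 + 1) → Fin (j + 1)) :=
      (Fintype.equivFinOfCardEq hcard).symm
    refine hC _ _ ?_ ⟨fun l => fun D => g (eq l) * ω D, hlin.comp _ eq.injective, fun l =>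
      hsec (eq l)⟩
    exact Nat.mul_pos hJ hr
  obtain ⟨M, hM⟩ : ∃ M, M = C * ((h0 + 1) * m * r) ^ h0 := ⟨_, rfl⟩
  have h1 := key (M + 1) (by omega)
  have h2 : C * ((h0 + 1) * (M + 1) * m * r) ^ h0 = M * (M + 1) ^ h0 := by
    rw [hM, show (h0 + 1) * (C * ((h0 + 1) * m * r) ^ h0 + 1) * m * r =
      ((h0 + 1) * m * r) * (C * ((h0 + 1) * m * r) ^ h0 + 1) by ring, mul_pow]
    ring
  rw [h2] at h1
  have h3 : M * (M + 1) ^ h0 < (M + 1 + 1) ^ (h0 + 1) := by
    calc M * (M + 1) ^ h0 ≤ (M + 1) * (M + 1) ^ h0 := Nat.mul_le_mul_right _ (by omega)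
      _ = (M + 1) ^ (h0 + 1) := by rw [pow_succ]; ring
      _ < (M + 1 + 1) ^ (h0 + 1) := Nat.pow_lt_pow_left (by omega) (by omega)
  omega

/-- sections without a twist -/
theorem kod_ge_iff {h : ℕ} : AKod N K h ↔ ∃ m : ℕ, 0 < m ∧
    ∃ ω : Fin (h + 1) → (Fin N → Derivation ℂ K K) → K,
    (∀ b, IsPluri m (ω b) ∧ ∀ P : Place ℂ K, Divisorial N P → ∀ D : Fin N → Derivation ℂ K K,
      (∀ c, DerReg P (D c)) → ω b D = 0 ∨ 0 ≤ P.ord (ω b D)) ∧
    ∃ D, ω 0 D ≠ 0 ∧ AlgebraicIndependent ℂ (fun b : Fin h => ω b.succ D / ω 0 D) := by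
  constructor
  · rintro ⟨m, hm, ω, hω, hind⟩
    refine ⟨m, hm, ω, fun b => ⟨(hω b).1, fun P hP D hD => ?_⟩, hind⟩
    refine ((hω b).2 P hP D hD).imp id ?_
    rintro ⟨s, hs, -, hle⟩
    rw [Finset.mem_singleton] at hs
    rw [hs, P.ord_one, mul_zero] at hle
    exact hle
  · rintro ⟨m, hm, ω, hω, hind⟩
    refine ⟨m, hm, ω, fun b => ⟨(hω b).1, fun P hP D hD => ?_⟩, hind⟩
    refine ((hω b).2 P hP D hD).imp id fun hle => ⟨1, by simp, one_ne_zero, ?_⟩
    rw [P.ord_one, mul_zero]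
    exact hle

end Pool.Agent.Y169.CP
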