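import Pool.Agent.Y169.CP.Main

/-!
Nonzero sections.
-/

set_option autoImplicit false
set_option linter.overlappingInstances false
set_option linter.unusedSectionVars false

open FF MvPolynomial Pool.Agent.W602.GT

namespace Pool.Agent.Y169.CP

open Pool.Agent.Y169.CH

variable {N : ℕ} {K : Type} [Field K] [Algebra ℂ K]

theorem eff_iff : (∃ m : ℕ, 0 < m ∧ ∃ ω : (Fin N → Derivation ℂ K K) → K, ω ≠ 0 ∧
    ASec N {1} m 1 ω) ↔ AKod N K 0 := by
  constructor
  · rintro ⟨m, hm, ω, h0, hω⟩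
    obtain ⟨D, hD⟩ : ∃ D, ω D ≠ 0 := by
      by_contra hcon
      push Not at hcon
      exact h0 (funext hcon)
    exact ⟨m, hm, fun _ => ω, fun _ => hω, D, hD, algebraicIndependent_empty_type⟩
  · rintro ⟨m, hm, ω, hω, D, hD, -⟩
    exact ⟨m, hm, ω 0, fun h0 => hD (congrFun h0 D), hω 0⟩

theorem neg_iff : (∀ m : ℕ, 0 < m → ∀ ω : (Fin N → Derivation ℂ K K) → K,
    ASec N {1} m 1 ω → ω = 0) ↔ ¬ AKod N K 0 := by
  rw [← eff_iff]
  push Not
  exact ⟨fun h m hm ω h0 hω => h0 (h m hm ω hω), fun h m hm ω hω => by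
    by_contra h0
    exact h m hm ω h0 hω⟩

end Pool.Agent.Y169.CP
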