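import Pool.Agent.Y169.CP.Vtx
import Pool.Agent.Y169.TH.Mak

/-!
Effective nonvanishing: a bound for the first nonzero plurigenus.
-/

set_option autoImplicit false
set_option linter.overlappingInstances false
set_option linter.unusedSectionVars false
set_option maxHeartbeats 400000

open FF MvPolynomial Pool.Agent.W603.LV Pool.Agent.W602.GT Pool.Agent.W602.Cov
open Pool.Agent.W602.Cov.G Pool.Agent.TH152.AC Pool.Agent.TH122.AB
open Pool.Agent.Y169.TH Pool.Agent.Y169.TH.Cv Pool.Agent.Y169.TP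
open Pool.Agent.Y169.CH hiding Adm

namespace Pool.Agent.Y169.CP

/-- a point with a small denominator -/
theorem small_point {N R : ℕ} {M : Fin R → ℕ} {a : Fin R → Fin N → ℕ} {dF : Fin N → ℕ}
    (hM : ∀ j, 0 < M j) (hN : 2 ≤ N) (hd : ∀ k, 0 < dF k) (hne : (PiA M a dF).Nonempty) {B : ℕ}
    (hdB : ∀ k, dF k ≤ B) (hMB : per M ≤ B) :
    ∃ y ∈ PiA M a dF, ∃ T : ℕ, 1 ≤ T ∧ T ≤ N.factorial * B ^ N ∧
      ∀ k, ∃ z : ℤ, (T : ℚ) * y k = z := by
  classical
  have hset : PiA M a dF = PolG (fun k => ((dF k : ℤ) : ℚ)) ((∑ k, (dF k : ℤ) - N : ℤ) : ℚ)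
      (fun (s : Red M a) k => ((s.v k : ℤ) : ℚ)) fun _ => ((1 : ℤ) : ℚ) := by
    rw [PiA_eq hM hN]
    have h1 : ((∑ k, (dF k : ℤ) - N : ℤ) : ℚ) = ∑ k, (dF k : ℚ) - N := by
      push_cast
      rfl
    rw [h1]
    ext y
    unfold Pol PolG
    simp only [Int.cast_natCast, Int.cast_one, Set.mem_setOf_eq]
    exact Iff.rfl
  rw [hset] at hne ⊢
  have hnn : ∀ y : Fin N → ℚ, (∀ s : Red M a, 0 ≤ dotL (fun k => ((s.v k : ℤ) : ℚ)) y) →
      ∀ k, 0 ≤ y k := by
    intro y hy k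
    have h1 := nonneg_of_red (a := a) hM hN (c := 0) (y := y) (fun s => by
      have h2 := hy s
      simp only [Int.cast_natCast] at h2
      exact h2) k
    have h2 : (0 : ℚ) < per M := by exact_mod_cast per_pos hM
    exact nonneg_of_mul_nonneg_right h1 h2
  obtain ⟨y, hy, T, hT1, hT2, hT3⟩ := exists_small (fun k => by exact_mod_cast hd k) hnn hne
    (B := B) (fun k => by
      rw [abs_of_nonneg (by positivity)]
      exact_mod_cast hdB k) (fun s k => by
      rw [abs_of_nonneg (by positivity)]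
      have h1 : s.v k ≤ per M := Nat.lt_succ_iff.1 (s.1 k).2
      exact_mod_cast h1.trans hMB)
  exact ⟨y, hy, T, hT1, by exact_mod_cast hT2, hT3⟩

/-- the pluricanonical form of a point of the polyhedron -/
theorem form_of_point {d : ℕ} {Φ : Arr (d + 1)} {K : Type} [Field K] [Algebra ℂ K] {R : ℕ}
    (C : Cv Φ K R) {y : Fin (d + 2) → ℚ} (hy : y ∈ PiA C.M C.a Φ.dF) {T : ℕ}
    (hT : ∀ k, ∃ z : ℤ, (T : ℚ) * y k = z) :
    ∃ ω : (Fin (d + 1) → Derivation ℂ K K) → K, ω ≠ 0 ∧ ASec (d + 1) {1} T 1 ω := by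
  classical
  choose w hw using hT
  have hdeg : ∑ k, (Φ.dF k : ℤ) * w k = T * (∑ k, (Φ.dF k : ℤ) - (d + 2)) := by
    have h1 : ((∑ k, (Φ.dF k : ℤ) * w k : ℤ) : ℚ) =
        ((T * (∑ k, (Φ.dF k : ℤ) - (d + 2)) : ℤ) : ℚ) := by
      have h2 := hy.1
      push_cast
      have h3 : ∀ k, (Φ.dF k : ℚ) * w k = T * (Φ.dF k * y k) := by
        intro k
        rw [← hw k]
        ring
      rw [Finset.sum_congr rfl fun k _ => h3 k, ← Finset.mul_sum, h2]
      push_cast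
      ring
    exact_mod_cast h1
  obtain ⟨D0, hD0⟩ := exists_dual C.u_bas
  have hbw0 : bw D0 C.x = 1 := by
    rw [Pool.Agent.W930.CG.bw_one D0 C.x C.hx0]
    change (Matrix.of fun i j => D0 i (C.u j)).det = 1
    rw [hD0, Matrix.det_one]
  obtain ⟨Ex, hEx⟩ : ∃ Ex : K, Ex = ∏ k, aeval C.x (Φ.F k) ^ (w k - T) := ⟨_, rfl⟩
  have hExne : Ex ≠ 0 := by
    rw [hEx]
    exact Finset.prod_ne_zero_iff.2 fun k _ => zpow_ne_zero _ (C.F_ne k)
  refine ⟨fun D => bw D C.x ^ T * Ex, ?_, ?_, ?_⟩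
  · intro h0
    have h1 : bw D0 C.x ^ T * Ex = 0 := congrFun h0 D0
    rw [hbw0, one_pow, one_mul] at h1
    exact hExne h1
  · intro A D
    dsimp only
    rw [(bwa (d + 1) K).2.1 A D C.x, mul_pow]
    ring
  · intro P _ D hD
    obtain ⟨α, v, hα, hdat⟩ := C.exists_dat P
    have h1 := bw_reg_ord Φ.hS Φ.hh hdat hD
    have hEord : P.ord Ex = ∑ k, (w k - T) * (Φ.dF k * α + v k) := by
      rw [hEx, ord_prod' P Finset.univ _ fun k _ => zpow_ne_zero _ (C.F_ne k)]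
      exact Finset.sum_congr rfl fun k _ => by rw [P.ord_zpow, hdat.hv]
    have h2 := (h1.pow T).mul (ge_ord P Ex)
    dsimp only
    rcases h2 with h2 | h2
    · exact Or.inl h2
    · right
      refine ⟨1, by simp, one_ne_zero, ?_⟩
      rw [P.ord_one, mul_zero]
      refine le_trans ?_ h2
      rw [hEord]
      have h3 : ∑ k, (w k - T) * (Φ.dF k * α + v k) =
          α * (∑ k, (Φ.dF k : ℤ) * w k) + ∑ k, w k * v k -
          T * α * ∑ k, (Φ.dF k : ℤ) - T * ∑ k, (v k : ℤ) := by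
        rw [Finset.mul_sum, Finset.mul_sum, Finset.mul_sum, ← Finset.sum_add_distrib,
          ← Finset.sum_sub_distrib, ← Finset.sum_sub_distrib]
        exact Finset.sum_congr rfl fun k _ => by ring
      rw [h3, hdeg]
      have h4 : (T : ℤ) * (if v = 0 then 0 else 1) ≤ ∑ k, w k * v k := by
        by_cases hv : v = 0
        · rw [if_pos hv, hv]
          simp
        · rw [if_neg hv]
          have h5 := hy.2 v (C.adm hdat hv)
          have h6 : (T : ℚ) * 1 ≤ T * ∑ k, (v k : ℚ) * y k :=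
            mul_le_mul_of_nonneg_left h5 (by positivity)
          have h7 : (T : ℚ) * ∑ k, (v k : ℚ) * y k = ((∑ k, w k * v k : ℤ) : ℚ) := by
            rw [Finset.mul_sum]
            push_cast
            refine Finset.sum_congr rfl fun k _ => ?_
            rw [← hw k]
            ring
          rw [h7] at h6
          exact_mod_cast h6
      push_cast
      nlinarith

/-- **Effective nonvanishing.** -/
theorem pg2 {d R : ℕ} {K : Type} [Field K] [Algebra ℂ K] {x : Fin (d + 2) → K} (hx0 : x 0 ≠ 0)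
    (hbas : IsTranscendenceBasis ℂ fun b : Fin (d + 1) => x b.succ / x 0)
    {F : Fin (d + 2) → MvPolynomial (Fin (d + 2)) ℂ} {dF : Fin (d + 2) → ℕ} (hd : ∀ k, 0 < dF k)
    (hh : ∀ k, (F k).IsHomogeneous (dF k)) (hS : Snc F) {z : Fin R → K} {M : Fin R → ℕ}
    (hM : ∀ j, 0 < M j) {a : Fin R → Fin (d + 2) → ℕ}
    (hz : ∀ j, z j ^ M j = ∏ k, (aeval x (F k) / x 0 ^ dF k) ^ a j k)
    (hdiv : ∀ j, M j ∣ ∑ k, a j k * dF k)
    (hgen : IntermediateField.adjoin ℂ
      (Set.range (fun b : Fin (d + 1) => x b.succ / x 0) ∪ Set.range z) = ⊤)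
    (hne : (PiA M a dF).Nonempty) {B : ℕ} (hdB : ∀ k, dF k ≤ B) (hMB : ∏ j, M j ≤ B) :
    ∃ T : ℕ, 1 ≤ T ∧ T ≤ (d + 2).factorial * B ^ (d + 2) ∧
      ∃ ω : (Fin (d + 1) → Derivation ℂ K K) → K, ω ≠ 0 ∧ ASec (d + 1) {1} T 1 ω := by
  obtain ⟨y, hy, T, hT1, hT2, hT3⟩ := small_point hM (by omega) hd hne hdB hMB
  obtain ⟨Φ, rfl, C, rfl, rfl⟩ := Pool.Agent.Y169.TH.exists_cv hx0 hbas hd hh hS hM hz hdiv hgen
  exact ⟨T, hT1, hT2, form_of_point C hy hT3⟩

end Pool.Agent.Y169.CP
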