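import Pool.Agent.Y169.TP.LP

/-!
Points of polyhedra with small denominators.
-/

set_option autoImplicit false
set_option linter.overlappingInstances false
set_option linter.unusedSectionVars false
set_option maxHeartbeats 400000

open Pool.Agent.TH152.AC Pool.Agent.Y169.TH Pool.Agent.Y169.TP

namespace Pool.Agent.Y169.CP

section

variable {N : ℕ} {ι : Type} [Fintype ι] {d : Fin N → ℚ} {κ : ℚ} {v : ι → Fin N → ℚ} {γ : ι → ℚ}

/-- a vertex -/
theorem exists_vertex (hd : ∀ k, 0 < d k)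
    (hv : ∀ y : Fin N → ℚ, (∀ s, 0 ≤ dotL (v s) y) → ∀ k, 0 ≤ y k)
    (hne : (PolG d κ v γ).Nonempty) :
    ∃ y ∈ PolG d κ v γ, ∀ z : Fin N → ℚ, dotL d z = 0 →
      (∀ s, dotL (v s) y = γ s → dotL (v s) z = 0) → z = 0 := by
  classical
  let A : (Fin N → ℚ) → Finset ι := fun y => Finset.univ.filter fun s => dotL (v s) y = γ s
  obtain ⟨F, ⟨y, hy, rfl⟩, hmax⟩ := Set.exists_max_image (A '' PolG d κ v γ) Finset.card
    (Set.toFinite _) (hne.image _)
  refine ⟨y, hy, fun z hz0 hz => ?_⟩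
  by_contra hzne
  -- some inequality decreases in the direction `z`
  obtain ⟨s0, hs0⟩ : ∃ s, dotL (v s) z < 0 := by
    by_contra hcon
    push Not at hcon
    have h1 := hv z hcon
    rw [dotL_apply] at hz0
    have h2 := (Finset.sum_eq_zero_iff_of_nonneg fun k _ => mul_nonneg (hd k).le (h1 k)).1 hz0
    apply hzne
    funext k
    exact (mul_eq_zero.1 (h2 k (Finset.mem_univ k))).resolve_left (hd k).ne'
  obtain ⟨s, hs, hmin⟩ := Finset.exists_min_image (Finset.univ.filter fun s => dotL (v s) z < 0)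
    (fun s => (dotL (v s) y - γ s) / (- dotL (v s) z)) ⟨s0, by simpa using hs0⟩
  rw [Finset.mem_filter] at hs
  have hsz : 0 < - dotL (v s) z := by linarith [hs.2]
  obtain ⟨t, ht⟩ : ∃ t, t = (dotL (v s) y - γ s) / (- dotL (v s) z) := ⟨_, rfl⟩
  have ht0 : 0 ≤ t := by
    rw [ht]
    exact div_nonneg (by linarith [hy.2 s]) hsz.le
  have hdot : ∀ s, dotL (v s) (y + t • z) = dotL (v s) y + t * dotL (v s) z := by
    intro s
    rw [map_add, map_smul, smul_eq_mul]
  have hmem : y + t • z ∈ PolG d κ v γ := by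
    refine ⟨?_, fun s' => ?_⟩
    · rw [map_add, map_smul, hz0, hy.1, smul_zero, add_zero]
    · rw [hdot]
      by_cases h1 : dotL (v s') z < 0
      · have h2 := hmin s' (by simpa using h1)
        rw [← ht, le_div_iff₀ (by linarith)] at h2
        linarith
      · push Not at h1
        have h2 := hy.2 s'
        have h3 := mul_nonneg ht0 h1
        linarith
  have hlt : (A y).card < (A (y + t • z)).card := by
    apply Finset.card_lt_card
    rw [Finset.ssubset_iff_of_subset]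
    · refine ⟨s, ?_, ?_⟩
      · simp only [A, Finset.mem_filter, Finset.mem_univ, true_and]
        have h1 : t * (- dotL (v s) z) = dotL (v s) y - γ s := by
          rw [ht]
          exact div_mul_cancel₀ _ hsz.ne'
        rw [hdot]
        linarith
      · simp only [A, Finset.mem_filter, Finset.mem_univ, true_and]
        intro h1
        have h2 := hz s h1
        linarith
    · intro s' hs'
      simp only [A, Finset.mem_filter, Finset.mem_univ, true_and] at hs' ⊢
      rw [hdot, hz s' hs', mul_zero, add_zero, hs']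
  exact absurd (hmax _ ⟨_, hmem, rfl⟩) (not_le.2 hlt)

end

/-- **Small denominators.** -/
theorem exists_small {N : ℕ} {ι : Type} [Fintype ι] {d : Fin N → ℤ} {κ : ℤ} {v : ι → Fin N → ℤ}
    {γ : ι → ℤ} (hd : ∀ k, 0 < d k)
    (hv : ∀ y : Fin N → ℚ, (∀ s, 0 ≤ dotL (fun k => (v s k : ℚ)) y) → ∀ k, 0 ≤ y k)
    (hne : (PolG (fun k => (d k : ℚ)) (κ : ℚ) (fun s k => (v s k : ℚ)) fun s => (γ s : ℚ)).Nonempty)
    {B : ℤ} (hdB : ∀ k, |d k| ≤ B) (hvB : ∀ s k, |v s k| ≤ B) :
    ∃ y ∈ PolG (fun k => (d k : ℚ)) (κ : ℚ) (fun s k => (v s k : ℚ)) fun s => (γ s : ℚ),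
      ∃ T : ℕ, 1 ≤ T ∧ (T : ℤ) ≤ N.factorial * B ^ N ∧ ∀ k, ∃ z : ℤ, (T : ℚ) * y k = z := by
  classical
  obtain ⟨y, hy, hvert⟩ := exists_vertex (fun k => by exact_mod_cast hd k) hv hne
  refine ⟨y, hy, ?_⟩
  let ro : Option {s // dotL (fun k => (v s k : ℚ)) y = γ s} → Fin N → ℤ :=
    fun o => o.elim d fun s => v s.1
  let rq : Option {s // dotL (fun k => (v s k : ℚ)) y = γ s} → Fin N → ℚ :=
    fun o k => (ro o k : ℚ)
  let rh : Option {s // dotL (fun k => (v s k : ℚ)) y = γ s} → ℤ := fun o => o.elim κ fun s => γ s.1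
  have hro : ∀ o, dotL (rq o) y = rh o := by
    rintro (_ | s)
    · exact hy.1
    · exact s.2
  have hspan : Submodule.span ℚ (Set.range rq) = ⊤ := by
    by_contra hne
    obtain ⟨f, hf, hker⟩ := Submodule.exists_le_ker_of_lt_top _ (lt_top_iff_ne_top.2 hne)
    apply hf
    obtain ⟨z, hz⟩ : ∃ z : Fin N → ℚ, z = fun i => f fun j => if i = j then 1 else 0 := ⟨_, rfl⟩
    have hfz : ∀ w, f w = dotL w z := by
      intro w
      rw [LinearMap.pi_apply_eq_sum_univ f w, dotL_apply, hz]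
      rfl
    have h0 : ∀ o, dotL (rq o) z = 0 := by
      intro o
      rw [← hfz]
      exact hker (Submodule.subset_span ⟨o, rfl⟩)
    have h1 : z = 0 := hvert z (h0 none) fun s hs => h0 (some ⟨s, hs⟩)
    ext1 w
    ext1
    rw [LinearMap.comp_apply, hfz, h1, map_zero]
    rfl
  have hfin := Submodule.exists_fun_fin_finrank_span_eq ℚ (Set.range rq)
  have hN : Module.finrank ℚ (Submodule.span ℚ (Set.range rq)) = N := by
    rw [hspan, finrank_top, Module.finrank_fin_fun]
  rw [hN] at hfin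
  obtain ⟨f, hf1, -, hf3⟩ := hfin
  choose g hg using hf1
  let Z : Matrix (Fin N) (Fin N) ℤ := Matrix.of fun i k => ro (g i) k
  have hZq : Z.map (Int.cast : ℤ → ℚ) = Matrix.of f := by
    ext i k
    change ((ro (g i) k : ℤ) : ℚ) = f i k
    rw [← hg i]
  have hdet : Z.det ≠ 0 := by
    intro h0
    have h1 : IsUnit (Matrix.of f) := Matrix.linearIndependent_rows_iff_isUnit.1 hf3
    rw [Matrix.isUnit_iff_isUnit_det, ← hZq] at h1
    have h2 : (Z.map (Int.cast : ℤ → ℚ)).det = ((Z.det : ℤ) : ℚ) :=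
      (RingHom.map_det (Int.castRingHom ℚ) Z).symm
    rw [h2, h0, Int.cast_zero] at h1
    exact not_isUnit_zero h1
  refine ⟨Z.det.natAbs, Int.natAbs_pos.2 hdet, ?_, fun k => ?_⟩
  · rw [Int.natCast_natAbs]
    have h1 := Matrix.det_le (A := Z) (abv := AbsoluteValue.abs) (x := B) (by
      intro i k
      change |ro (g i) k| ≤ B
      rcases g i with _ | s
      · exact hdB k
      · exact hvB s.1 k)
    rw [Fintype.card_fin, nsmul_eq_mul] at h1
    exact h1
  · have h1 : (Z.map (Int.cast : ℤ → ℚ)).mulVec y = fun i => (rh (g i) : ℚ) := by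
      rw [hZq]
      funext i
      rw [← hro (g i), dotL_apply, hg i]
      rfl
    have h2 : (Z.adjugate.map (Int.cast : ℤ → ℚ)).mulVec ((Z.map (Int.cast : ℤ → ℚ)).mulVec y) =
        (Z.det : ℚ) • y := by
      rw [Matrix.mulVec_mulVec]
      have h3 : Z.adjugate.map (Int.cast : ℤ → ℚ) * Z.map (Int.cast : ℤ → ℚ) =
          (Z.adjugate * Z).map (Int.cast : ℤ → ℚ) :=
        (Matrix.map_mul (f := Int.castRingHom ℚ)).symm
      rw [h3, Matrix.adjugate_mul]
      have h4 : (Z.det • (1 : Matrix (Fin N) (Fin N) ℤ)).map (Int.cast : ℤ → ℚ) =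
          (Z.det : ℚ) • (1 : Matrix (Fin N) (Fin N) ℚ) := by
        ext i j
        rw [Matrix.map_apply, Matrix.smul_apply, Matrix.smul_apply, Matrix.one_apply,
          Matrix.one_apply]
        split_ifs
        · rw [smul_eq_mul, smul_eq_mul, mul_one, mul_one]
        · rw [smul_zero, smul_zero, Int.cast_zero]
      rw [h4, Matrix.smul_mulVec, Matrix.one_mulVec]
    rw [h1] at h2
    obtain ⟨w, hw⟩ : ∃ w : ℤ, w = ∑ i, Z.adjugate k i * rh (g i) := ⟨_, rfl⟩
    have h3 : (Z.det : ℚ) * y k = w := by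
      have h4 := congrFun h2 k
      rw [Pi.smul_apply, smul_eq_mul] at h4
      rw [← h4, hw]
      push_cast
      rfl
    obtain ⟨δ, hδ⟩ : ∃ δ : ℤ, δ = Z.det := ⟨_, rfl⟩
    rw [← hδ] at h3 ⊢
    have h6 : ((δ.natAbs : ℕ) : ℚ) = |(δ : ℚ)| := by
      rw [← Int.cast_abs, Int.abs_eq_natAbs, Int.cast_natCast]
    rw [h6]
    rcases abs_choice (δ : ℚ) with h5 | h5
    · exact ⟨w, by rw [h5, h3]⟩
    · exact ⟨- w, by rw [h5, neg_mul, h3, Int.cast_neg]⟩

end Pool.Agent.Y169.CP
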